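import Mathlib

/-!
# Minimal defining sets of designs: a spectrum with a hole

The design `D` of the 8 points and 14 planes of `AG(3,2)`, as a simple `2-(8,4,3)` design, has minimal
defining sets with 6 and with 8 blocks, but none with 7 blocks.
-/

set_option autoImplicit false

namespace Pool.Agent.Results.MP_13ec72_co.SpectrumHole

open Finset

/-- `D` is (the block set of) a simple `t-(v,k,lam)` design on the point set `Fin v`. -/
def IsDesign (t k lam : ℕ) {v : ℕ} (D : Finset (Finset (Fin v))) : Prop :=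
  (∀ B ∈ D, B.card = k) ∧
    ∀ T : Finset (Fin v), T.card = t → (D.filter fun B => T ⊆ B).card = lam

/-- `S` is a defining set of the `t-(v,k,lam)` design `D`: a set of blocks of `D` such that `D` is the
only `t-(v,k,lam)` design on the same points which contains `S`. -/
def Defining (t k lam : ℕ) {v : ℕ} (D S : Finset (Finset (Fin v))) : Prop :=
  S ⊆ D ∧ ∀ D' : Finset (Finset (Fin v)), IsDesign t k lam D' → S ⊆ D' → D' = D

/-- minimal with respect to inclusion -/
def MinimalDefining (t k lam : ℕ) {v : ℕ} (D S : Finset (Finset (Fin v))) : Prop :=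
  Defining t k lam D S ∧ ∀ S' : Finset (Finset (Fin v)), S' ⊂ S → ¬ Defining t k lam D S'

/-- the set of the sizes of the minimal defining sets of `D` -/
def Spectrum (t k lam : ℕ) {v : ℕ} (D : Finset (Finset (Fin v))) : Set ℕ :=
  {n | ∃ S : Finset (Finset (Fin v)), MinimalDefining t k lam D S ∧ S.card = n}

/-- The set `X` of numbers has a hole. -/
def HasHole (X : Set ℕ) : Prop := ∃ a ∈ X, ∃ b ∈ X, ∃ m, a < m ∧ m < b ∧ m ∉ X

namespace Aux

/-- the 4-subsets of `{0,...,7}` as binary numbers -/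
def ML : List ℕ := [15, 23, 27, 29, 30, 39, 43, 45, 46, 51, 53, 54, 57, 58, 60, 71, 75, 77, 78, 83, 85, 86, 89, 90, 92, 99, 101, 102, 105, 106, 108, 113, 114, 116, 120, 135, 139, 141, 142, 147, 149, 150, 153, 154, 156, 163, 165, 166, 169, 170, 172, 177, 178, 180, 184, 195, 197, 198, 201, 202, 204, 209, 210, 212, 216, 225, 226, 228, 232, 240]

/-- the 2-subsets -/
def PL : List ℕ := [3, 5, 6, 9, 10, 12, 17, 18, 20, 24, 33, 34, 36, 40, 48, 65, 66, 68, 72, 80, 96, 129, 130, 132, 136, 144, 160, 192]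

/-- the 4-subsets containing the 2-subsets -/
def LL : List (List ℕ) := [[15, 23, 27, 39, 43, 51, 71, 75, 83, 99, 135, 139, 147, 163, 195],
  [15, 23, 29, 39, 45, 53, 71, 77, 85, 101, 135, 141, 149, 165, 197],
  [15, 23, 30, 39, 46, 54, 71, 78, 86, 102, 135, 142, 150, 166, 198],
  [15, 27, 29, 43, 45, 57, 75, 77, 89, 105, 139, 141, 153, 169, 201],
  [15, 27, 30, 43, 46, 58, 75, 78, 90, 106, 139, 142, 154, 170, 202],
  [15, 29, 30, 45, 46, 60, 77, 78, 92, 108, 141, 142, 156, 172, 204],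
  [23, 27, 29, 51, 53, 57, 83, 85, 89, 113, 147, 149, 153, 177, 209],
  [23, 27, 30, 51, 54, 58, 83, 86, 90, 114, 147, 150, 154, 178, 210],
  [23, 29, 30, 53, 54, 60, 85, 86, 92, 116, 149, 150, 156, 180, 212],
  [27, 29, 30, 57, 58, 60, 89, 90, 92, 120, 153, 154, 156, 184, 216],
  [39, 43, 45, 51, 53, 57, 99, 101, 105, 113, 163, 165, 169, 177, 225],
  [39, 43, 46, 51, 54, 58, 99, 102, 106, 114, 163, 166, 170, 178, 226],
  [39, 45, 46, 53, 54, 60, 101, 102, 108, 116, 165, 166, 172, 180, 228],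
  [43, 45, 46, 57, 58, 60, 105, 106, 108, 120, 169, 170, 172, 184, 232],
  [51, 53, 54, 57, 58, 60, 113, 114, 116, 120, 177, 178, 180, 184, 240],
  [71, 75, 77, 83, 85, 89, 99, 101, 105, 113, 195, 197, 201, 209, 225],
  [71, 75, 78, 83, 86, 90, 99, 102, 106, 114, 195, 198, 202, 210, 226],
  [71, 77, 78, 85, 86, 92, 101, 102, 108, 116, 197, 198, 204, 212, 228],
  [75, 77, 78, 89, 90, 92, 105, 106, 108, 120, 201, 202, 204, 216, 232],
  [83, 85, 86, 89, 90, 92, 113, 114, 116, 120, 209, 210, 212, 216, 240],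
  [99, 101, 102, 105, 106, 108, 113, 114, 116, 120, 225, 226, 228, 232, 240],
  [135, 139, 141, 147, 149, 153, 163, 165, 169, 177, 195, 197, 201, 209, 225],
  [135, 139, 142, 147, 150, 154, 163, 166, 170, 178, 195, 198, 202, 210, 226],
  [135, 141, 142, 149, 150, 156, 165, 166, 172, 180, 197, 198, 204, 212, 228],
  [139, 141, 142, 153, 154, 156, 169, 170, 172, 184, 201, 202, 204, 216, 232],
  [147, 149, 150, 153, 154, 156, 177, 178, 180, 184, 209, 210, 212, 216, 240],
  [163, 165, 166, 169, 170, 172, 177, 178, 180, 184, 225, 226, 228, 232, 240],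
  [195, 197, 198, 201, 202, 204, 209, 210, 212, 216, 225, 226, 228, 232, 240]]

/-- the planes of AG(3,2) -/
def DL : List ℕ := [15, 51, 60, 85, 90, 102, 105, 150, 153, 165, 170, 195, 204, 240]

/-- three parallel classes with independent directions -/
def TL : List (List ℕ) := [[15, 51, 85, 170, 204, 240],
  [15, 51, 90, 165, 204, 240],
  [15, 51, 102, 153, 204, 240],
  [15, 51, 105, 150, 204, 240],
  [15, 60, 85, 170, 195, 240],
  [15, 60, 90, 165, 195, 240],
  [15, 60, 102, 153, 195, 240],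
  [15, 60, 105, 150, 195, 240],
  [15, 85, 102, 153, 170, 240],
  [15, 85, 105, 150, 170, 240],
  [15, 90, 102, 153, 165, 240],
  [15, 90, 105, 150, 165, 240],
  [51, 60, 85, 170, 195, 204],
  [51, 60, 90, 165, 195, 204],
  [51, 60, 102, 153, 195, 204],
  [51, 60, 105, 150, 195, 204],
  [51, 85, 90, 165, 170, 204],
  [51, 85, 105, 150, 170, 204],
  [51, 90, 102, 153, 165, 204],
  [51, 102, 105, 150, 153, 204],
  [60, 85, 90, 165, 170, 195],
  [60, 85, 102, 153, 170, 195],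
  [60, 90, 105, 150, 165, 195],
  [60, 102, 105, 150, 153, 195],
  [85, 90, 102, 153, 165, 170],
  [85, 90, 105, 150, 165, 170],
  [85, 102, 105, 150, 153, 170],
  [90, 102, 105, 150, 153, 165]]

/-- the trades of volume 4: removed and added blocks -/
def EL : List (List ℕ × List ℕ) := [([15, 51, 85, 105], [23, 43, 77, 113]),
  ([15, 51, 90, 102], [27, 39, 78, 114]),
  ([15, 51, 150, 170], [23, 43, 142, 178]),
  ([15, 51, 153, 165], [27, 39, 141, 177]),
  ([15, 60, 85, 102], [29, 46, 71, 116]),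
  ([15, 60, 90, 105], [30, 45, 75, 120]),
  ([15, 60, 150, 165], [30, 45, 135, 180]),
  ([15, 60, 153, 170], [29, 46, 139, 184]),
  ([15, 85, 150, 204], [23, 77, 142, 212]),
  ([15, 85, 153, 195], [29, 71, 139, 209]),
  ([15, 90, 150, 195], [30, 75, 135, 210]),
  ([15, 90, 153, 204], [27, 78, 141, 216]),
  ([15, 102, 165, 204], [39, 78, 141, 228]),
  ([15, 102, 170, 195], [46, 71, 139, 226]),
  ([15, 105, 165, 195], [45, 75, 135, 225]),
  ([15, 105, 170, 204], [43, 77, 142, 232]),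
  ([51, 60, 85, 90], [53, 58, 83, 92]),
  ([51, 60, 102, 105], [54, 57, 99, 108]),
  ([51, 60, 150, 153], [54, 57, 147, 156]),
  ([51, 60, 165, 170], [53, 58, 163, 172]),
  ([51, 85, 150, 240], [23, 113, 178, 212]),
  ([51, 85, 165, 195], [53, 83, 163, 197]),
  ([51, 90, 153, 240], [27, 114, 177, 216]),
  ([51, 90, 170, 195], [58, 83, 163, 202]),
  ([51, 102, 150, 195], [54, 99, 147, 198]),
  ([51, 102, 165, 240], [39, 114, 177, 228]),
  ([51, 105, 153, 195], [57, 99, 147, 201]),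
  ([51, 105, 170, 240], [43, 113, 178, 232]),
  ([60, 85, 153, 240], [29, 116, 184, 209]),
  ([60, 85, 165, 204], [53, 92, 172, 197]),
  ([60, 90, 150, 240], [30, 120, 180, 210]),
  ([60, 90, 170, 204], [58, 92, 172, 202]),
  ([60, 102, 150, 204], [54, 108, 156, 198]),
  ([60, 102, 170, 240], [46, 116, 184, 226]),
  ([60, 105, 153, 204], [57, 108, 156, 201]),
  ([60, 105, 165, 240], [45, 120, 180, 225]),
  ([85, 90, 102, 105], [86, 89, 101, 106]),
  ([85, 90, 150, 153], [86, 89, 149, 154]),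
  ([85, 90, 195, 204], [83, 92, 197, 202]),
  ([85, 102, 150, 165], [86, 101, 149, 166]),
  ([85, 102, 195, 240], [71, 116, 209, 226]),
  ([85, 105, 153, 165], [89, 101, 149, 169]),
  ([85, 105, 204, 240], [77, 113, 212, 232]),
  ([90, 102, 150, 170], [86, 106, 154, 166]),
  ([90, 102, 204, 240], [78, 114, 216, 228]),
  ([90, 105, 153, 170], [89, 106, 154, 169]),
  ([90, 105, 195, 240], [75, 120, 210, 225]),
  ([102, 105, 165, 170], [101, 106, 166, 169]),
  ([102, 105, 195, 204], [99, 108, 198, 201]),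
  ([150, 153, 165, 170], [149, 154, 166, 169]),
  ([150, 153, 195, 204], [147, 156, 198, 201]),
  ([150, 165, 195, 240], [135, 180, 210, 225]),
  ([150, 170, 204, 240], [142, 178, 212, 232]),
  ([153, 165, 204, 240], [141, 177, 216, 228]),
  ([153, 170, 195, 240], [139, 184, 209, 226]),
  ([165, 170, 195, 204], [163, 172, 197, 202])]

/-- a set of eight blocks -/
def U0 : List ℕ := [15, 51, 60, 85, 90, 150, 165, 195]

/-- first set of six blocks -/
def T0 : List ℕ := [15, 51, 85, 170, 204, 240]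

inductive Tr
  | v (j : ℕ)
  | d
  | b (m : ℕ) (l r : Tr)

/-- checks a search tree -/
def chk : Tr → ℕ → ℕ → Bool
  | .v j, i, o =>
    match LL[j]? with
    | none => false
    | some l => decide (4 ≤ l.countP fun m => i.testBit m) ||
        decide ((l.countP fun m => !o.testBit m) ≤ 2)
  | .d, i, _ => DL.all fun m => i.testBit m
  | .b m l r, i, o => chk l (i ||| 2 ^ m) o && chk r i (o ||| 2 ^ m)

/-- search tree for `U0` -/
def t8 : Tr := (.b 23 (.v 0) (.b 27 (.v 0) (.b 39 (.v 0) (.b 43 (.v 0) (.b 71 (.v 0) (.b 75 (.v 0) (.b 83 (.v 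
  0) (.b 99 (.v 0) (.b 135 (.v 0) (.b 139 (.v 0) (.b 147 (.v 0) (.b 163 (.v 0) (.b 29 (.v 1) 
  (.b 45 (.v 1) (.b 53 (.v 1) (.b 77 (.v 1) (.b 101 (.v 1) (.b 141 (.v 1) (.b 149 (.v 1) (.b 
  197 (.v 1) (.b 30 (.v 7) (.b 54 (.v 7) (.b 58 (.v 7) (.b 86 (.v 7) (.b 114 (.v 7) (.b 154 (.v 
  7) (.b 178 (.v 7) (.b 210 (.v 7) (.b 92 (.v 8) (.b 116 (.v 8) (.b 156 (.v 8) (.b 180 (.v 8) 
  (.b 212 (.v 8) (.b 142 (.b 46 (.v 2) (.b 78 (.v 2) (.b 102 (.v 2) (.b 166 (.v 2) (.b 198 (.v 
  2) (.b 106 (.v 4) (.b 170 (.v 4) (.v 11)))))))) (.b 78 (.b 46 (.v 2) (.b 102 (.v 2) (.b 166 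
  (.v 2) (.b 198 (.v 2) (.b 106 (.v 4) (.b 170 (.v 4) (.v 11))))))) (.b 46 (.b 102 (.v 2) (.b 
  166 (.v 2) (.b 198 (.v 2) (.b 106 (.v 4) (.b 170 (.v 4) (.b 202 (.v 4) (.b 108 (.v 5) (.b 172 
  (.v 5) (.b 204 (.v 5) (.v 17)))))))))) (.b 166 (.b 102 (.v 2) (.b 198 (.v 2) (.b 108 (.v 12) 
  (.b 172 (.v 12) (.b 204 (.v 23) (.v 5)))))) (.b 198 (.b 102 (.v 2) (.b 106 (.v 16) (.b 170 
  (.v 22) (.v 11)))) (.b 102 (.b 108 (.v 12) (.b 172 (.v 12) (.b 204 (.b 228 (.v 12) (.b 106 
  (.v 16) (.b 202 (.v 16) (.b 170 (.b 226 (.v 11) (.b 113 (.b 57 (.v 6) (.b 89 (.v 6) (.b 153 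
  (.v 6) (.b 177 (.v 6) (.b 209 (.v 6) (.b 105 (.v 10) (.b 169 (.v 10) (.v 3)))))))) (.b 177 
  (.b 57 (.v 6) (.b 89 (.v 6) (.b 153 (.v 6) (.b 209 (.v 6) (.b 105 (.v 10) (.b 169 (.v 10) (.v 
  3))))))) (.b 209 (.b 57 (.v 6) (.b 89 (.v 6) (.b 153 (.v 6) (.b 105 (.v 15) (.b 169 (.v 21) 
  (.v 3)))))) (.b 57 (.b 89 (.v 6) (.b 153 (.v 6) (.b 120 (.v 9) (.b 184 (.v 9) (.b 216 (.v 9) 
  (.v 25)))))) (.b 89 (.b 153 (.v 6) (.b 120 (.v 9) (.b 184 (.v 9) (.b 216 (.v 9) (.v 25))))) 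
  (.b 153 (.b 120 (.v 9) (.b 184 (.v 9) (.b 216 (.v 9) (.b 240 (.b 169 (.v 21) (.b 201 (.v 21) 
  (.b 105 .d (.v 3)))) (.v 14))))) (.v 6)))))))) (.v 4))))) (.v 5)))) (.v 
  2))))))))))))))))))))))))))))))))))))))))

lemma chk_sound (f : ℕ → Bool) (hf : ∀ l ∈ LL, l.countP f = 3) : ∀ (t : Tr) (i o : ℕ),
    (∀ m, i.testBit m = true → f m = true) → (∀ m, o.testBit m = true → f m = false) →
    chk t i o = true → ∀ m ∈ DL, f m = true := by
  intro t
  induction t with
  | v j =>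
    intro i o hi ho h
    exfalso
    rw [chk] at h
    split at h
    · exact absurd h (by simp)
    · next l hl =>
      have hl' : l ∈ LL := List.mem_of_getElem? hl
      have h3 := hf l hl'
      rw [Bool.or_eq_true, decide_eq_true_iff, decide_eq_true_iff] at h
      rcases h with h | h
      · have h4 : (l.countP fun m => i.testBit m) ≤ l.countP f :=
          List.countP_mono_left fun m _ hm => hi m hm
        omega
      · have h4 : l.countP f ≤ (l.countP fun m => !o.testBit m) :=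
          List.countP_mono_left fun m _ hm => by
            by_contra hc
            have h5 : o.testBit m = true := by simpa using hc
            rw [ho m h5] at hm
            exact absurd hm (by simp)
        omega
  | d =>
    intro i o hi ho h m hm
    rw [chk, List.all_eq_true] at h
    exact hi m (h m hm)
  | b m l r ihl ihr =>
    intro i o hi ho h
    rw [chk, Bool.and_eq_true] at h
    cases hfm : f m with
    | true =>
      refine ihl (i ||| 2 ^ m) o (fun n hn => ?_) ho h.1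
      rw [Nat.testBit_or, Bool.or_eq_true, Nat.testBit_two_pow] at hn
      rcases hn with hn | hn
      · exact hi n hn
      · have : m = n := by simpa using hn
        rw [← this, hfm]
    | false =>
      refine ihr i (o ||| 2 ^ m) hi (fun n hn => ?_) h.2
      rw [Nat.testBit_or, Bool.or_eq_true, Nat.testBit_two_pow] at hn
      rcases hn with hn | hn
      · exact ho n hn
      · have : m = n := by simpa using hn
        rw [← this, hfm]

/-- the set of the points `i < 8` with bit `i` -/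
def toSet (m : ℕ) : Finset (Fin 8) := univ.filter fun i : Fin 8 => m.testBit i = true

lemma mem_toSet {m : ℕ} {i : Fin 8} : i ∈ toSet m ↔ m.testBit i = true := by
  unfold toSet
  rw [mem_filter]
  exact ⟨fun h => h.2, fun h => ⟨mem_univ _, h⟩⟩

lemma code_spec : ∀ b0 b1 b2 b3 b4 b5 b6 b7 : Bool,
    (b0.toNat + 2 * b1.toNat + 4 * b2.toNat + 8 * b3.toNat + 16 * b4.toNat + 32 * b5.toNat +
      64 * b6.toNat + 128 * b7.toNat < 256) ∧
    ∀ i : Fin 8, (b0.toNat + 2 * b1.toNat + 4 * b2.toNat + 8 * b3.toNat + 16 * b4.toNat +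
      32 * b5.toNat + 64 * b6.toNat + 128 * b7.toNat).testBit i =
      ![b0, b1, b2, b3, b4, b5, b6, b7] i := by
  decide +kernel

lemma exists_code (B : Finset (Fin 8)) : ∃ m < 256, toSet m = B := by
  obtain ⟨h1, h2⟩ := code_spec (decide (0 ∈ B)) (decide (1 ∈ B)) (decide (2 ∈ B)) (decide (3 ∈ B))
    (decide (4 ∈ B)) (decide (5 ∈ B)) (decide (6 ∈ B)) (decide (7 ∈ B))
  refine ⟨_, h1, ?_⟩
  ext i
  rw [mem_toSet, h2 i]
  fin_cases i <;> simp

lemma testBit_ge {m i : ℕ} (hm : m < 256) (hi : 8 ≤ i) : m.testBit i = false := by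
  refine Nat.testBit_lt_two_pow (lt_of_lt_of_le hm ?_)
  calc 256 = 2 ^ 8 := by norm_num
    _ ≤ 2 ^ i := Nat.pow_le_pow_right (by norm_num) hi

lemma toSet_inj {m n : ℕ} (hm : m < 256) (hn : n < 256) (h : toSet m = toSet n) : m = n := by
  refine Nat.eq_of_testBit_eq fun i => ?_
  by_cases hi : i < 8
  · have h1 : (⟨i, hi⟩ : Fin 8) ∈ toSet m ↔ (⟨i, hi⟩ : Fin 8) ∈ toSet n := by rw [h]
    rw [mem_toSet, mem_toSet] at h1
    exact Bool.eq_iff_iff.2 h1
  · rw [testBit_ge hm (by omega), testBit_ge hn (by omega)]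

lemma sub_iff {p m : ℕ} (hp : p < 256) : toSet p ⊆ toSet m ↔ m &&& p = p := by
  constructor
  · intro h
    refine Nat.eq_of_testBit_eq fun i => ?_
    rw [Nat.testBit_and]
    by_cases hi : i < 8
    · have h1 : p.testBit i = true → m.testBit i = true := fun h2 =>
        mem_toSet.1 (h ((mem_toSet (i := ⟨i, hi⟩)).2 h2))
      cases hpi : p.testBit i with
      | true => rw [h1 hpi]; rfl
      | false => simp
    · rw [testBit_ge hp (by omega)]; simp
  · intro h i hi
    rw [mem_toSet] at hi ⊢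
    rw [← h, Nat.testBit_and, Bool.and_eq_true] at hi
    exact hi.1

lemma ML_spec : ∀ m < 256, (toSet m).card = 4 → m ∈ ML := by decide +kernel

lemma ML_card : ∀ m ∈ ML, m < 256 ∧ (toSet m).card = 4 := by decide +kernel

lemma PL_spec : ∀ m < 256, (toSet m).card = 2 → m ∈ PL := by decide +kernel

lemma PL_card : ∀ m ∈ PL, m < 256 ∧ (toSet m).card = 2 := by decide +kernel

lemma ML_nodup : ML.Nodup := by decide +kernel

lemma LL_spec : LL = PL.map fun p => ML.filter fun m => decide (m &&& p = p) := by decide +kernel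

/-- the blocks with the given codes -/
def setOf' (W : List ℕ) : Finset (Finset (Fin 8)) := (W.map toSet).toFinset

lemma mem_setOf' {W : List ℕ} {B : Finset (Fin 8)} : B ∈ setOf' W ↔ ∃ m ∈ W, toSet m = B := by
  unfold setOf'
  rw [List.mem_toFinset, List.mem_map]

lemma toSet_mem {W : List ℕ} (hW : ∀ m ∈ W, m < 256) {m : ℕ} (hm : m < 256) :
    toSet m ∈ setOf' W ↔ m ∈ W := by
  rw [mem_setOf']
  constructor
  · rintro ⟨n, hn, h⟩
    rwa [← toSet_inj (hW n hn) hm h]
  · intro h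
    exact ⟨m, h, rfl⟩

lemma card_filter_setOf' {W : List ℕ} (hn : W.Nodup) (hW : ∀ m ∈ W, m < 256)
    (q : Finset (Fin 8) → Prop) [DecidablePred q] :
    ((setOf' W).filter q).card = W.countP fun m => decide (q (toSet m)) := by
  have h1 : (setOf' W).filter q = ((W.filter fun m => decide (q (toSet m))).toFinset).image toSet := by
    ext B
    rw [mem_filter, mem_setOf', mem_image]
    constructor
    · rintro ⟨⟨m, hm, rfl⟩, hq⟩
      refine ⟨m, ?_, rfl⟩
      rw [List.mem_toFinset, List.mem_filter]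
      exact ⟨hm, by simpa using hq⟩
    · rintro ⟨m, hm, rfl⟩
      rw [List.mem_toFinset, List.mem_filter] at hm
      exact ⟨⟨m, hm.1, rfl⟩, by simpa using hm.2⟩
  rw [h1, card_image_of_injOn, List.toFinset_card_of_nodup (hn.filter _), List.countP_eq_length_filter]
  intro m hm n hn' h
  rw [mem_coe, List.mem_toFinset, List.mem_filter] at hm hn'
  exact toSet_inj (hW m hm.1) (hW n hn'.1) h

lemma card_setOf' {W : List ℕ} (hn : W.Nodup) (hW : ∀ m ∈ W, m < 256) :
    (setOf' W).card = W.length := by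
  have h := card_filter_setOf' hn hW (fun _ => True)
  simpa using h

lemma design_of {W : List ℕ} (hn : W.Nodup) (hW : ∀ m ∈ W, m ∈ ML)
    (h : ∀ p ∈ PL, (W.countP fun m => decide (m &&& p = p)) = 3) : IsDesign 2 4 3 (setOf' W) := by
  have hW' : ∀ m ∈ W, m < 256 := fun m hm => (ML_card m (hW m hm)).1
  constructor
  · intro B hB
    obtain ⟨m, hm, rfl⟩ := mem_setOf'.1 hB
    exact (ML_card m (hW m hm)).2
  · intro T hT
    obtain ⟨p, hp, rfl⟩ := exists_code T
    rw [card_filter_setOf' hn hW', ← h p (PL_spec p hp hT)]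
    simp only [sub_iff hp]

/-- the codes of the blocks of a design -/
lemma list_of {D' : Finset (Finset (Fin 8))} (h : IsDesign 2 4 3 D') :
    D' = setOf' (ML.filter fun m => decide (toSet m ∈ D')) := by
  ext B
  rw [mem_setOf']
  constructor
  · intro hB
    obtain ⟨m, hm, rfl⟩ := exists_code B
    refine ⟨m, List.mem_filter.2 ⟨ML_spec m hm (h.1 _ hB), by simpa using hB⟩, rfl⟩
  · rintro ⟨m, hm, rfl⟩
    simpa using (List.mem_filter.1 hm).2

lemma counts {D' : Finset (Finset (Fin 8))} (h : IsDesign 2 4 3 D') :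
    ∀ l ∈ LL, (l.countP fun m => decide (toSet m ∈ D')) = 3 := by
  intro l hl
  rw [LL_spec, List.mem_map] at hl
  obtain ⟨p, hp, rfl⟩ := hl
  have h1 := h.2 (toSet p) (PL_card p hp).2
  rw [list_of h, card_filter_setOf' (ML_nodup.filter _)
    (fun m hm => (ML_card m (List.mem_filter.1 hm).1).1)] at h1
  rw [List.countP_filter] at h1 ⊢
  rw [← h1]
  refine List.countP_congr fun m _ => ?_
  simp only [Bool.and_eq_true, decide_eq_true_iff, sub_iff (PL_card p hp).1]
  tauto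

/-- a design which contains another one with the same parameters -/
lemma eq_of_subset {D' D'' : Finset (Finset (Fin 8))} (h' : IsDesign 2 4 3 D')
    (h'' : IsDesign 2 4 3 D'') (hs : D' ⊆ D'') : D' = D'' := by
  refine Subset.antisymm hs fun B hB => ?_
  by_contra hn
  obtain ⟨T, hT, hT2⟩ := exists_subset_card_eq (s := B) (n := 2) (by rw [h''.1 B hB]; norm_num)
  have h1 : D'.filter (fun B => T ⊆ B) ⊂ D''.filter (fun B => T ⊆ B) := by
    rw [ssubset_iff_of_subset (filter_subset_filter _ hs)]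
    exact ⟨B, mem_filter.2 ⟨hB, hT⟩, fun h => hn (mem_filter.1 h).1⟩
  have h2 := card_lt_card h1
  rw [h'.2 T hT2, h''.2 T hT2] at h2
  exact absurd h2 (lt_irrefl _)

/-- the design -/
def D₀ : Finset (Finset (Fin 8)) := setOf' DL

lemma DL_spec : DL.Nodup ∧ (∀ m ∈ DL, m ∈ ML) ∧
    ∀ p ∈ PL, (DL.countP fun m => decide (m &&& p = p)) = 3 := by decide +kernel

lemma DL_lt : ∀ m ∈ DL, m < 256 := fun m hm => (ML_card m (DL_spec.2.1 m hm)).1

lemma D₀_design : IsDesign 2 4 3 D₀ := design_of DL_spec.1 DL_spec.2.1 DL_spec.2.2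

/-! ### The trades: sets which are not defining -/

lemma EL_spec : ∀ e ∈ EL, ((DL.filter fun m => decide (m ∉ e.1)) ++ e.2).Nodup ∧
    (∀ m ∈ (DL.filter fun m => decide (m ∉ e.1)) ++ e.2, m ∈ ML) ∧
    (∀ p ∈ PL, (((DL.filter fun m => decide (m ∉ e.1)) ++ e.2).countP
      fun m => decide (m &&& p = p)) = 3) ∧ ∃ a ∈ e.2, a ∉ DL := by decide +kernel

lemma not_defining {S : Finset (Finset (Fin 8))} {e : List ℕ × List ℕ} (he : e ∈ EL)
    (h : ∀ m ∈ e.1, toSet m ∉ S) : ¬ Defining 2 4 3 D₀ S := by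
  rintro ⟨hS, hd⟩
  obtain ⟨h1, h2, h3, a, ha, ha'⟩ := EL_spec e he
  have h4 := hd _ (design_of h1 h2 h3) fun B hB => by
    obtain ⟨m, hm, rfl⟩ := mem_setOf'.1 (hS hB)
    refine mem_setOf'.2 ⟨m, ?_, rfl⟩
    rw [List.mem_append, List.mem_filter]
    refine Or.inl ⟨hm, ?_⟩
    rw [decide_eq_true_iff]
    exact fun h5 => h m h5 hB
  have h5 : toSet a ∈ D₀ := by
    rw [← h4]
    exact mem_setOf'.2 ⟨a, List.mem_append_right _ ha, rfl⟩
  have h6 : a < 256 := (ML_card a (h2 a (List.mem_append_right _ ha))).1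
  exact ha' ((toSet_mem DL_lt h6).1 h5)

/-! ### Three parallel classes with independent directions are a defining set -/

lemma sum_pairs {D' : Finset (Finset (Fin 8))} (h : IsDesign 2 4 3 D')
    (P : Finset (Fin 8 × Fin 8)) (hP : ∀ z ∈ P, z.1 ≠ z.2) :
    ∑ C ∈ D', (P.filter fun z => z.1 ∈ C ∧ z.2 ∈ C).card = 3 * P.card := by
  have h1 : ∀ C ∈ D', (P.filter fun z => z.1 ∈ C ∧ z.2 ∈ C).card =
      ∑ z ∈ P, if z.1 ∈ C ∧ z.2 ∈ C then 1 else 0 := fun C _ => card_filter _ _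
  rw [sum_congr rfl h1, sum_comm]
  have h2 : ∀ z ∈ P, (∑ C ∈ D', if z.1 ∈ C ∧ z.2 ∈ C then 1 else 0) = 3 := by
    intro z hz
    rw [← card_filter, ← h.2 {z.1, z.2} (card_pair (hP z hz))]
    congr 1
    refine filter_congr fun C _ => ?_
    rw [insert_subset_iff, singleton_subset_iff]
  rw [sum_congr rfl h2, sum_const, smul_eq_mul, mul_comm]

lemma card_design {D' : Finset (Finset (Fin 8))} (h : IsDesign 2 4 3 D') : D'.card = 14 := by
  have h1 := sum_pairs h (univ : Finset (Fin 8)).offDiag fun z hz => (mem_offDiag.1 hz).2.2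
  have h2 : ∀ C ∈ D', ((univ : Finset (Fin 8)).offDiag.filter fun z => z.1 ∈ C ∧ z.2 ∈ C).card =
      12 := by
    intro C hC
    have h3 : ((univ : Finset (Fin 8)).offDiag.filter fun z => z.1 ∈ C ∧ z.2 ∈ C) = C.offDiag := by
      ext z
      simp only [mem_filter, mem_offDiag, mem_univ, true_and]
      tauto
    rw [h3, offDiag_card, h.1 C hC]
  rw [sum_congr rfl h2, sum_const, offDiag_card, card_univ, Fintype.card_fin] at h1
  simp only [smul_eq_mul] at h1
  omega

lemma inter {D' : Finset (Finset (Fin 8))} (h : IsDesign 2 4 3 D') {B : Finset (Fin 8)}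
    (hB : B ∈ D') (hBc : Bᶜ ∈ D') : ∀ C ∈ D', C ≠ B → C ≠ Bᶜ → (C ∩ B).card = 2 := by
  have hB4 : B.card = 4 := h.1 B hB
  have h1 := sum_pairs h (B ×ˢ Bᶜ) fun z hz h2 => by
    rw [mem_product] at hz
    exact (mem_compl.1 hz.2) (h2 ▸ hz.1)
  have h2 : ∀ C ∈ D', ((B ×ˢ Bᶜ).filter fun z => z.1 ∈ C ∧ z.2 ∈ C).card =
      (C ∩ B).card * (C \ B).card := by
    intro C _
    rw [← card_product]
    congr 1
    ext z
    simp only [mem_filter, mem_product, mem_compl, mem_inter, mem_sdiff]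
    tauto
  rw [sum_congr rfl h2, card_product, card_compl, Fintype.card_fin, hB4] at h1
  have h3 : ∀ C ∈ D', (C ∩ B).card + (C \ B).card = 4 := fun C hC => by
    rw [card_inter_add_card_sdiff, h.1 C hC]
  have h4 : ∑ C ∈ D', (((C ∩ B).card : ℤ) - 2) ^ 2 = 8 := by
    have h5 : ∀ C ∈ D', (((C ∩ B).card : ℤ) - 2) ^ 2 =
        4 - (((C ∩ B).card * (C \ B).card : ℕ) : ℤ) := by
      intro C hC
      have h6 := h3 C hC
      have h7 : ((C \ B).card : ℤ) = 4 - (C ∩ B).card := by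
        have : (((C ∩ B).card + (C \ B).card : ℕ) : ℤ) = 4 := by rw [h6]; rfl
        push_cast at this
        linarith
      push_cast
      rw [h7]
      ring
    rw [sum_congr rfl h5, sum_sub_distrib, sum_const, card_design h, ← Nat.cast_sum, h1]
    norm_num
  have hne : B ≠ Bᶜ := by
    intro h5
    have : B.card = Bᶜ.card := by rw [← h5]
    obtain ⟨x, hx⟩ : B.Nonempty := card_pos.1 (by rw [hB4]; norm_num)
    have hx2 : x ∈ Bᶜ := h5 ▸ hx
    exact (mem_compl.1 hx2) hx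
  intro C hC hCB hCBc
  have h5 : (((B ∩ B).card : ℤ) - 2) ^ 2 = 4 := by rw [inter_self, hB4]; norm_num
  have h6 : (((Bᶜ ∩ B).card : ℤ) - 2) ^ 2 = 4 := by
    have : Bᶜ ∩ B = ∅ := by rw [inter_comm]; exact inter_compl B
    rw [this, card_empty]; norm_num
  have h7 : ∑ C' ∈ ({B, Bᶜ, C} : Finset (Finset (Fin 8))), (((C' ∩ B).card : ℤ) - 2) ^ 2 ≤ 8 := by
    rw [← h4]
    refine sum_le_sum_of_subset_of_nonneg (fun C' hC' => ?_) fun _ _ _ => sq_nonneg _
    rw [mem_insert, mem_insert, mem_singleton] at hC'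
    rcases hC' with rfl | rfl | rfl
    · exact hB
    · exact hBc
    · exact hC
  rw [sum_insert, sum_insert, sum_singleton, h5, h6] at h7
  · have h8 : (((C ∩ B).card : ℤ) - 2) ^ 2 ≤ 0 := by linarith
    have h9 : ((C ∩ B).card : ℤ) - 2 = 0 := by
      have := sq_nonneg (((C ∩ B).card : ℤ) - 2)
      exact pow_eq_zero_iff (n := 2) (by norm_num) |>.1 (le_antisymm h8 this)
    omega
  · rw [mem_singleton]; exact fun h => hCBc h.symm
  · rw [mem_insert, mem_singleton, not_or]; exact ⟨hne, fun h => hCB h.symm⟩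

lemma TL_spec : ∀ T ∈ TL, T.Nodup ∧ T.length = 6 ∧ (∀ b ∈ T, b ∈ DL ∧ 255 - b ∈ T) ∧
    ∀ m ∈ ML, (∀ b ∈ T, (toSet (m &&& b)).card = 2) → m ∈ DL := by decide +kernel

lemma compl_spec : ∀ m ∈ ML, toSet (255 - m) = (toSet m)ᶜ := by decide +kernel

lemma inter_toSet (m n : ℕ) : toSet m ∩ toSet n = toSet (m &&& n) := by
  ext i
  rw [mem_inter, mem_toSet, mem_toSet, mem_toSet, Nat.testBit_and, Bool.and_eq_true]

lemma TL_defining {T : List ℕ} (hT : T ∈ TL) : Defining 2 4 3 D₀ (setOf' T) := by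
  obtain ⟨-, -, h1, h2⟩ := TL_spec T hT
  refine ⟨fun B hB => ?_, fun D' hD' hs => ?_⟩
  · obtain ⟨m, hm, rfl⟩ := mem_setOf'.1 hB
    exact mem_setOf'.2 ⟨m, (h1 m hm).1, rfl⟩
  refine eq_of_subset hD' D₀_design fun C hC => ?_
  obtain ⟨m, hm, rfl⟩ := exists_code C
  have hmM := ML_spec m hm (hD'.1 _ hC)
  refine mem_setOf'.2 ⟨m, ?_, rfl⟩
  by_cases hmT : m ∈ T
  · exact (h1 m hmT).1
  refine h2 m hmM fun b hb => ?_
  have hbM : b ∈ ML := DL_spec.2.1 b (h1 b hb).1
  have hb1 : toSet b ∈ D' := hs (mem_setOf'.2 ⟨b, hb, rfl⟩)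
  have hb2 : (toSet b)ᶜ ∈ D' := by
    rw [← compl_spec b hbM]
    exact hs (mem_setOf'.2 ⟨_, (h1 b hb).2, rfl⟩)
  rw [← inter_toSet]
  refine inter hD' hb1 hb2 _ hC (fun h3 => ?_) fun h3 => ?_
  · rw [toSet_inj hm (ML_card b hbM).1 h3] at hmT
    exact hmT hb
  · rw [← compl_spec b hbM] at h3
    rw [toSet_inj hm (by omega) h3] at hmT
    exact hmT (h1 b hb).2

/-! ### The eight blocks -/

lemma t8_check : chk t8 (U0.foldl (fun a m => a ||| 2 ^ m) 0) 0 = true := by decide +kernel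

lemma foldl_testBit (l : List ℕ) : ∀ (a n : ℕ),
    (l.foldl (fun a m => a ||| 2 ^ m) a).testBit n = true ↔ a.testBit n = true ∨ n ∈ l := by
  induction l with
  | nil => intro a n; simp
  | cons m l ih =>
    intro a n
    rw [List.foldl_cons, ih, Nat.testBit_or, Bool.or_eq_true, Nat.testBit_two_pow, List.mem_cons,
      decide_eq_true_iff, or_assoc, eq_comm (a := m)]

lemma U0_spec : U0.Nodup ∧ U0.length = 8 ∧ ∀ m ∈ U0, m ∈ DL := by decide +kernel

lemma U0_defining : Defining 2 4 3 D₀ (setOf' U0) := by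
  refine ⟨fun B hB => ?_, fun D' hD' hs => ?_⟩
  · obtain ⟨m, hm, rfl⟩ := mem_setOf'.1 hB
    exact mem_setOf'.2 ⟨m, U0_spec.2.2 m hm, rfl⟩
  refine (eq_of_subset D₀_design hD' fun C hC => ?_).symm
  obtain ⟨m, hm, rfl⟩ := mem_setOf'.1 hC
  have h := chk_sound (fun m => decide (toSet m ∈ D')) (counts hD') t8 _ 0 (fun n hn => ?_)
    (fun n hn => ?_) t8_check m hm
  · simpa using h
  · rw [foldl_testBit] at hn
    rcases hn with hn | hn
    · simp at hn
    · rw [decide_eq_true_iff]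
      exact hs (mem_setOf'.2 ⟨n, hn, rfl⟩)
  · simp at hn

/-! ### Minimality -/

lemma minimal_of {U : List ℕ} (hU : Defining 2 4 3 D₀ (setOf' U)) (hU1 : ∀ m ∈ U, m < 256)
    (h : ∀ b ∈ U, ∃ e ∈ EL, ∀ m ∈ e.1, m ∈ U → m = b) (hE : ∀ e ∈ EL, ∀ m ∈ e.1, m < 256) :
    MinimalDefining 2 4 3 D₀ (setOf' U) := by
  refine ⟨hU, fun S' hS' => ?_⟩
  obtain ⟨B, hB, hB'⟩ := exists_of_ssubset hS'
  obtain ⟨b, hb, rfl⟩ := mem_setOf'.1 hB
  obtain ⟨e, he, h1⟩ := h b hb
  refine not_defining he fun m hm hmS => ?_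
  have h2 := (toSet_mem hU1 (hE e he m hm)).1 (hS'.1 hmS)
  rw [h1 m hm h2] at hmS
  exact hB' hmS

lemma EL_lt : ∀ e ∈ EL, ∀ m ∈ e.1, m < 256 := by decide +kernel

lemma T0_spec : T0 ∈ TL ∧ T0.Nodup ∧ T0.length = 6 ∧ (∀ m ∈ T0, m < 256) ∧
    ∀ b ∈ T0, ∃ e ∈ EL, ∀ m ∈ e.1, m ∈ T0 → m = b := by decide +kernel

lemma U0_min : ∀ b ∈ U0, ∃ e ∈ EL, ∀ m ∈ e.1, m ∈ U0 → m = b := by decide +kernel

/-! ### No minimal defining set of seven blocks -/

/-- a trade avoids the set `s`, or `s` contains three independent parallel classes -/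
def ok (s : ℕ) : Bool :=
  EL.any (fun e => e.1.all fun m => !s.testBit m) || TL.any (fun t => t.all fun m => s.testBit m)

/-- all `c`-subsets of the list, together with `s`, are `ok` -/
def enum : List ℕ → ℕ → ℕ → Bool
  | [], 0, s => ok s
  | [], _ + 1, _ => true
  | _ :: l, 0, s => enum l 0 s
  | m :: l, c + 1, s => enum l (c + 1) s && enum l c (s ||| 2 ^ m)

lemma enum_sound : ∀ (l : List ℕ) (c s : ℕ), enum l c s = true → ∀ u : List ℕ, u.Sublist l →
    u.length = c → ok (u.foldl (fun a m => a ||| 2 ^ m) s) = true := by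
  intro l
  induction l with
  | nil =>
    intro c s h u hu hc
    rw [List.sublist_nil] at hu
    subst hu
    rw [List.length_nil] at hc
    subst hc
    exact h
  | cons m l ih =>
    intro c s h u hu hc
    cases hu with
    | cons _ hu' =>
      cases c with
      | zero => exact ih 0 s h u hu' hc
      | succ c =>
        rw [enum, Bool.and_eq_true] at h
        exact ih (c + 1) s h.1 u hu' hc
    | @cons_cons u' _ _ hu' =>
      cases c with
      | zero => simp at hc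
      | succ c =>
        rw [enum, Bool.and_eq_true] at h
        rw [List.foldl_cons]
        exact ih c _ h.2 u' hu' (by simpa using hc)

lemma enum_DL : enum DL 7 0 = true := by decide +kernel

lemma no_seven (S : Finset (Finset (Fin 8))) (hS : MinimalDefining 2 4 3 D₀ S) : S.card ≠ 7 := by
  intro hc
  obtain ⟨u, hu⟩ : ∃ u : List ℕ, u = DL.filter fun m => decide (toSet m ∈ S) := ⟨_, rfl⟩
  have hu1 : u.Sublist DL := by rw [hu]; exact List.filter_sublist
  have hmem : ∀ m, m ∈ u ↔ m ∈ DL ∧ toSet m ∈ S := by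
    intro m
    rw [hu, List.mem_filter, decide_eq_true_iff]
  have hu2 : S = setOf' u := by
    ext B
    rw [mem_setOf']
    constructor
    · intro hB
      obtain ⟨m, hm, rfl⟩ := mem_setOf'.1 (hS.1.1 hB)
      exact ⟨m, (hmem m).2 ⟨hm, hB⟩, rfl⟩
    · rintro ⟨m, hm, rfl⟩
      exact ((hmem m).1 hm).2
  have hu3 : u.length = 7 := by
    rw [← card_setOf' (hu1.nodup DL_spec.1) fun m hm => DL_lt m ((hmem m).1 hm).1, ← hu2, hc]
  have h := enum_sound DL 7 0 enum_DL u hu1 hu3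
  rw [ok, Bool.or_eq_true, List.any_eq_true, List.any_eq_true] at h
  rcases h with ⟨e, he, h⟩ | ⟨t, ht, h⟩
  · rw [List.all_eq_true] at h
    refine not_defining he (fun m hm hmS => ?_) hS.1
    have h1 := h m hm
    have h2 : m ∉ u := fun h3 => by
      rw [(foldl_testBit u 0 m).2 (Or.inr h3)] at h1
      exact absurd h1 (by simp)
    obtain ⟨n, hn, hnm⟩ := mem_setOf'.1 (hS.1.1 hmS)
    rw [toSet_inj (DL_lt n hn) (EL_lt e he m hm) hnm] at hn
    exact h2 ((hmem m).2 ⟨hn, hmS⟩)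
  · rw [List.all_eq_true] at h
    obtain ⟨ht1, ht2, ht3, -⟩ := TL_spec t ht
    refine hS.2 (setOf' t) ?_ (TL_defining ht)
    rw [ssubset_iff_subset_ne]
    refine ⟨fun B hB => ?_, fun h1 => ?_⟩
    · obtain ⟨m, hm, rfl⟩ := mem_setOf'.1 hB
      have h1 := (foldl_testBit u 0 m).1 (h m hm)
      rcases h1 with h1 | h1
      · simp at h1
      · exact ((hmem m).1 h1).2
    · have h2 := card_setOf' ht1 fun m hm => DL_lt m (ht3 m hm).1
      rw [h1, hc, ht2] at h2
      exact absurd h2 (by norm_num)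

end Aux

open Aux in
/-- There is a `2-(8,4,3)` design (the points and planes of `AG(3,2)`) whose spectrum contains `6` and
`8` but not `7`; so there are `t`-designs whose spectrum has a hole. -/
theorem result : ∃ D : Finset (Finset (Fin 8)), IsDesign 2 4 3 D ∧
    6 ∈ Spectrum 2 4 3 D ∧ 7 ∉ Spectrum 2 4 3 D ∧ 8 ∈ Spectrum 2 4 3 D ∧
    HasHole (Spectrum 2 4 3 D) := by
  have h6 : 6 ∈ Spectrum 2 4 3 D₀ := by
    obtain ⟨h1, h2, h3, h4, h5⟩ := T0_spec
    exact ⟨setOf' T0, minimal_of (TL_defining h1) h4 h5 EL_lt, by rw [card_setOf' h2 h4, h3]⟩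
  have h8 : 8 ∈ Spectrum 2 4 3 D₀ := by
    obtain ⟨h1, h2, h3⟩ := U0_spec
    have h4 : ∀ m ∈ U0, m < 256 := fun m hm => DL_lt m (h3 m hm)
    exact ⟨setOf' U0, minimal_of U0_defining h4 U0_min EL_lt, by rw [card_setOf' h1 h4, h2]⟩
  have h7 : 7 ∉ Spectrum 2 4 3 D₀ := by
    rintro ⟨S, hS, hc⟩
    exact no_seven S hS hc
  exact ⟨D₀, D₀_design, h6, h7, h8, 6, h6, 8, h8, 7, by norm_num, by norm_num, h7⟩

end Pool.Agent.Results.MP_13ec72_co.SpectrumHole
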